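import Pool.Agent.W16.CM.Stm

set_option autoImplicit false

open Finset Pool.Agent.W16.CM

namespace Pool.Agent.W924.CM.GRP

theorem gen (r : ℕ) (hr : r.Prime) (P : Finset ℕ) (hP : ∀ p ∈ P, ¬ r ∣ p) :
    ∃ (g : ZMod r) (a : ℕ → ℕ), g ^ (r - 1) = 1 ∧ ∀ p ∈ P, (p : ZMod r) = g ^ a p := by
  haveI := Fact.mk hr
  obtain ⟨g, hg⟩ := IsCyclic.exists_generator (α := (ZMod r)ˣ)
  have h1 : ∀ p : ℕ, ∃ a : ℕ, p ∈ P → (p : ZMod r) = (g : ZMod r) ^ a := by
    intro p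
    by_cases hp : p ∈ P
    · have hne : (p : ZMod r) ≠ 0 := by
        intro h0
        exact hP p hp ((ZMod.natCast_eq_zero_iff p r).1 h0)
      have h2 : Units.mk0 (p : ZMod r) hne ∈ Submonoid.powers g := by
        rw [mem_powers_iff_mem_zpowers]
        exact hg _
      obtain ⟨a, ha⟩ := h2
      refine ⟨a, fun _ => ?_⟩
      have := congrArg Units.val ha
      simpa using this.symm
    · exact ⟨0, fun h => absurd h hp⟩
  choose a ha using h1
  refine ⟨g, a, ?_, fun p hp => ha p hp⟩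
  exact ZMod.pow_card_sub_one_eq_one g.ne_zero

theorem grp (h : St_DAV) : St_GRP := by
  intro M Q P hM hQ hall hcard
  have h1 : ∀ r : ℕ, ∃ (g : ZMod r) (a : ℕ → ℕ), r ∈ Q →
      g ^ (r - 1) = 1 ∧ ∀ p ∈ P, (p : ZMod r) = g ^ a p := by
    intro r
    by_cases hr : r ∈ Q
    · obtain ⟨g, a, h2⟩ := gen r (hall r hr).1 P (hall r hr).2.2
      exact ⟨g, a, fun _ => h2⟩
    · exact ⟨1, 0, fun h => absurd h hr⟩
  choose g a hga using h1
  obtain ⟨u, huP, hne, hu⟩ := h M Q P (fun p r => ((a r p * (M / (r - 1)) : ℕ) : ℤ)) hM hQ hcard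
  refine ⟨u, huP, hne, fun r hr => ?_⟩
  obtain ⟨hrp, hrM, _⟩ := hall r hr
  obtain ⟨hg, hp⟩ := hga r hr
  obtain ⟨t, ht⟩ := hrM
  have hr1 : 0 < r - 1 := by
    have := hrp.two_le
    omega
  have ht0 : 0 < t := by
    rcases Nat.eq_zero_or_pos t with h0 | h0
    · rw [h0, mul_zero] at ht
      omega
    · exact h0
  have hdiv : M / (r - 1) = t := by
    rw [ht]
    exact Nat.mul_div_cancel_left t hr1
  have h2 := hu r hr
  rw [← Nat.cast_sum, Int.natCast_dvd_natCast, hdiv, ← Finset.sum_mul, ht] at h2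
  have h3 : (r - 1) ∣ ∑ i ∈ u, a r i := Nat.dvd_of_mul_dvd_mul_right ht0 h2
  rw [← ZMod.natCast_eq_natCast_iff, Nat.cast_prod, Nat.cast_one]
  rw [Finset.prod_congr rfl (fun p hpu => hp p (huP hpu)), Finset.prod_pow_eq_pow_sum]
  obtain ⟨k, hk⟩ := h3
  rw [hk, pow_mul, hg, one_pow]

end Pool.Agent.W924.CM.GRP
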